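import Pool.Agent.Work.MP_73831e_pr.J.Fin

/-!
For every `k ≥ 3`, with probability bounded away from `0` the random graph process on `[n]` has no
uniquely `k`-colourable subgraph other than a triangle at the step at which the chromatic number
first reaches `k + 1` (the negative answer to Q1).
-/

open scoped Classical

namespace Pool.Agent.Results.MP_73831e_pr.NoUCAtJump

/-- The pairs of distinct vertices of `[n]`. -/
abbrev Pair (n : ℕ) : Type := {e : Sym2 (Fin n) // ¬ e.IsDiag}

/-- A run of the random graph process: an ordering of all pairs of distinct vertices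
(all orderings are equally likely). -/
abbrev Run (n : ℕ) : Type := Fin (Fintype.card (Pair n)) ≃ Pair n

/-- The graph `G_t` of the run `ω`: its edges are the first `t` pairs. -/
def G {n : ℕ} (ω : Run n) (t : ℕ) : SimpleGraph (Fin n) :=
  SimpleGraph.fromEdgeSet {e | ∃ i : Fin (Fintype.card (Pair n)), (i : ℕ) < t ∧ (ω i : Sym2 (Fin n)) = e}

/-- `H` is uniquely `k`-colourable: its chromatic number is `k` and any two proper colourings of
`H` with `k` colours differ by a permutation of the colours. -/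
def UniquelyColourable (k : ℕ) {W : Type} (H : SimpleGraph W) : Prop :=
  H.chromaticNumber = (k : ℕ∞) ∧
    ∀ c c' : H.Coloring (Fin k), ∃ π : Equiv.Perm (Fin k), ∀ w, c' w = π (c w)

/-- `Γ` has a (not necessarily induced) subgraph which is uniquely `k`-colourable and is not a
triangle. -/
def HasUniquelyColourable (k : ℕ) {V : Type} (Γ : SimpleGraph V) : Prop :=
  ∃ H : Γ.Subgraph, UniquelyColourable k H.coe ∧
    ¬ Nonempty (H.coe ≃g (⊤ : SimpleGraph (Fin 3)))

/-- `τ` is the jump step: the least `t` with `χ(G_t) ≥ k + 1`. -/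
def IsJump {n : ℕ} (k : ℕ) (ω : Run n) (τ : ℕ) : Prop :=
  IsLeast {t : ℕ | ((k + 1 : ℕ) : ℕ∞) ≤ (G ω t).chromaticNumber} τ

theorem G_eq {n : ℕ} (ω : Run n) (t : ℕ) :
    G ω t = Pool.Agent.Work.MP_73831e_pr.gr (Pool.Agent.Work.MP_73831e_pr.pre ω t) := by
  unfold G Pool.Agent.Work.MP_73831e_pr.gr Pool.Agent.Work.MP_73831e_pr.pre
  congr 1
  ext e
  simp only [Set.mem_ofPred_eq, Set.mem_image, Finset.coe_map, Finset.coe_filter, Finset.mem_univ,
    true_and, Equiv.coe_toEmbedding]
  constructor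
  · rintro ⟨i, hi, rfl⟩
    exact ⟨ω i, ⟨i, hi, rfl⟩, rfl⟩
  · rintro ⟨x, ⟨i, hi, rfl⟩, rfl⟩
    exact ⟨i, hi, rfl⟩

theorem le_chi_iff {V : Type} (Γ : SimpleGraph V) (k : ℕ) :
    ((k + 1 : ℕ) : ℕ∞) ≤ Γ.chromaticNumber ↔ ¬ Γ.Colorable k := by
  rw [← SimpleGraph.chromaticNumber_le_iff_colorable, not_le, Nat.cast_add, Nat.cast_one]
  exact Order.add_one_le_iff_of_not_isMax (by simp)

theorem isJump_iff {n : ℕ} (k : ℕ) (ω : Run n) (τ : ℕ) :
    IsJump k ω τ ↔ Pool.Agent.Work.MP_73831e_pr.IsJump k ω τ := by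
  constructor
  · rintro ⟨h1, h2⟩
    refine ⟨?_, ?_⟩
    · simp only [Set.mem_ofPred_eq] at h1
      rw [le_chi_iff, G_eq] at h1; exact h1
    · intro t ht
      by_contra hcon
      have : τ ≤ t := h2 (by
        simp only [Set.mem_ofPred_eq]
        rw [le_chi_iff, G_eq]; exact hcon)
      omega
  · rintro ⟨h1, h2⟩
    refine ⟨?_, ?_⟩
    · simp only [Set.mem_ofPred_eq]
      rw [le_chi_iff, G_eq]; exact h1
    · intro t ht
      simp only [Set.mem_ofPred_eq] at ht
      rw [le_chi_iff, G_eq] at ht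
      by_contra hlt
      exact ht (h2 t (not_le.mp hlt))

/-- For every `k ≥ 3` there are `δ > 0` and `n₀` such that for all `n ≥ n₀`, for at least a
proportion `δ` of all orderings of the pairs of `[n]`, the graph `G_τ` at the jump step `τ`
has no uniquely `k`-colourable subgraph other than a triangle. -/
theorem result (k : ℕ) (hk : 3 ≤ k) :
    ∃ δ : ℝ, 0 < δ ∧ ∃ n₀ : ℕ, ∀ n ≥ n₀,
      δ * (Nat.card (Run n) : ℝ) ≤
        (Nat.card {ω : Run n // ∃ τ : ℕ, IsJump k ω τ ∧
          ¬ HasUniquelyColourable k (G ω τ)} : ℝ) := by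
  obtain ⟨δ, hδ, n₀, h⟩ := Pool.Agent.Work.MP_73831e_pr.J.main2 k hk
  refine ⟨δ, hδ, n₀, fun n hn => (h n hn).trans (le_of_eq ?_)⟩
  congr 1
  apply Nat.card_congr
  apply Equiv.subtypeEquivRight
  intro ω
  apply exists_congr
  intro τ
  rw [isJump_iff, G_eq]
  exact Iff.rfl

end Pool.Agent.Results.MP_73831e_pr.NoUCAtJump
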